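import Pool.Agent.TH311.Rioul.Zak

/-!
# Rioul's conjecture on Zak transforms of refinable functions is false

There is a continuous compactly supported solution `φ ≠ 0` of a dilation equation whose symbol `D`
is a quadrature mirror filter (so `D` has no pair of symmetric zeros) and whose Zak transform
vanishes on the whole line `ξ = 1/3`.
-/

open Pool.Agent.TH311.Rioul

namespace Pool.Agent.Results.MP_057a77_an.StretchedQMF

/-- There are a continuous compactly supported `φ : ℝ → ℂ`, `φ ≠ 0`, and finitely many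
coefficients `d` with `φ(t/2) = ∑ dₖ φ(t - k)`, such that the symbol `D` of `d` has no pair of
symmetric zeros, moreover `|D(ξ)|² + |D(ξ + 1/2)|² = 4` for all `ξ` and `D(0) = 2`, and
`Zφ(t, 1/3) = 0` for every real `t`; hence no `t₀` has `inf_ξ |Zφ(t₀, ξ)| > 0`. -/
theorem result : ∃ (φ : ℝ → ℂ) (d : ℤ →₀ ℂ),
    Continuous φ ∧ HasCompactSupport φ ∧ φ ≠ 0 ∧ Dilation φ d ∧
    ¬ SymmetricZeros d ∧
    (∀ ξ : ℝ, ‖symbol d ξ‖ ^ 2 + ‖symbol d (ξ + 1/2)‖ ^ 2 = 4) ∧ symbol d 0 = 2 ∧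
    (∀ t : ℝ, zak φ t (1/3) = 0) ∧
    ¬ ∃ t₀ : ℝ, 0 < ⨅ ξ : ℝ, ‖zak φ t₀ ξ‖ := by
  refine ⟨phi, d3, phi_continuous, phi_compact, phi_ne_zero, phi_dilation, no_symmetric, qmf,
    symbol_zero, zak_phi, ?_⟩
  rintro ⟨t₀, h⟩
  have h1 : (⨅ ξ : ℝ, ‖zak phi t₀ ξ‖) ≤ ‖zak phi t₀ (1/3)‖ :=
    ciInf_le ⟨0, by rintro _ ⟨ξ, rfl⟩; exact norm_nonneg _⟩ (1/3 : ℝ)
  rw [zak_phi, norm_zero] at h1
  linarith

end Pool.Agent.Results.MP_057a77_an.StretchedQMF
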